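import Pool.Agent.helper81.NW.Spec

set_option autoImplicit false

namespace Pool.Agent.helper81.NW

open Pool.Agent.helper84.NR
open scoped Classical
open Finset

theorem WBD_nr {V F : Type} {M : PMap V F} {x y : V} (h : NRPath M.toCyc x y) :
    WPath M.toCyc x y := by
  obtain ⟨n, q, h1, h2, h3, h4, h5⟩ := h
  exact ⟨n, q, h1, h2, h3, h4, fun f _ => h5 f⟩

/-- Row WBD: without such a path the pair `x`, `y` is weakly bad. -/
theorem WBD (hPCF : PCF_stmt) (hPCN : PCN_stmt) (hROU : ROU_stmt) (hDIS : DIS_stmt) :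
    WBD_stmt := by
  intro V F M x y hno
  have hne : ∀ f, ¬ (OnV M.toCyc f x ∧ OnV M.toCyc f y) :=
    fun f hf => hno (WBD_nr (hPCF V F M x y f hf.1 hf.2))
  refine ⟨⟨hne, ?_⟩, ?_, ?_⟩
  · intro s h1 h2
    exact hno (WBD_nr (hPCN V F M x y s hne h1 h2))
  · intro A B i j h1 h2 h3 h4 h5 h6
    exact hno (hROU V F M x y A B i j hne h1 h2 h3 h4 h5 h6)
  · by_contra hcon
    apply hno
    apply hDIS
    intro A B v h1 h2 h3 h4
    exact hcon ⟨A, B, v, h1, h2, h3, h4⟩

end Pool.Agent.helper81.NW
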